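import Mathlib
import Pool.Agent.H204R3.GP.Defs
import Pool.Agent.H204R3.GP.Neat
import Pool.Agent.H204R3.GP.MTDefs
import Pool.Agent.H204R3.GP.MT
import Pool.Agent.H194R3.Tate.CharZero
import Pool.Agent.Helper33_dom.Field

/-!
# The Mumford-Tate conjecture from one Frobenius element whose factors have dominating slopes

Let `A` be an abelian variety over a finitely generated subfield of the complex numbers, of any
dimension and with arbitrary endomorphisms. Suppose that `A` has good reduction at ONE closed point
`v` (with residue field of `p ^ a` elements) of a model, such that the characteristic polynomial of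
the Frobenius element is the product of the minimal polynomials of numbers `π i` which generate CM
fields `F i`, `π i * conj (π i) = p ^ a`, and each `π i` is of dominant type, of pair type or of flip
type.

Dominant type (the new case): let `w τ = 2 v (τ π) - a` be the normalised valuations, `τ` running
through the embeddings of `F i` in the algebraic closure of the `p`-adic numbers. There is `τ₀`
with `w τ₀ ≠ 0` such that the sum of all `|w τ|` is less than `4 |w τ₀|`; or it is equal to
`4 |w τ₀|` and `π i` is not of norm type: there is no subfield `E` of `F i`, different from `F i`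
and not totally real, such that for every embedding of `E` the sum of the `w τ` over its extensions
`τ` to `F i` is zero. There is no condition on the Galois group of `F i`. For instance, each simple
factor of the reduction has a commutative endomorphism algebra and the slopes `0` and `1` once and
`1/2` otherwise (or twice, if it is not of norm type).

For different `i`, `j` and embeddings `φ` of `F i` and `ψ` of `F j` some automorphism of the complex
numbers fixes one and conjugates the other.

Then all Tate classes in the tensor powers of `H^1` are linear combinations of Hodge classes, and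
even of products of Hodge classes of degree two. Together with the theorem of Deligne (Hodge classes
are Tate classes) this is the equality of the Mumford-Tate group (over `ℚ_ℓ`) and of the connected
component of the `ℓ`-adic monodromy group: both are reductive (Faltings), so that they are
determined by their invariants in the spaces `(H^1)^{⊗ 2 m}(m)`. So the Mumford-Tate conjecture holds
for `A`, and all Hodge classes on all powers of `A` are combinations of products of classes of
divisors.

For one field the result is the starting file `MP_de8692_ag/DominantSlope.lean`; new here are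
several fields (the reduction is not isogenous to a power of a simple abelian variety), also mixed
with the pair and flip types.

In the Lean statement `W` is `H_1(A, ℚ)`, `T` the tangent space at the origin and `per : W → T` the
inclusion, `ω₀` is the form given by a polarization; `V` is the rational Tate module with the
comparison map `comp : W → V`, the action `ρ` of the Galois group and the Weil pairing `ω`; `χ` is
the cyclotomic character and `γ` the Frobenius element at `v`. The hypotheses `hss` and `hF` are the
theorems of Faltings.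
-/

namespace Pool.Agent.Results.MP_33b3f9_ag.DominantFamilies

open NumberField Module Pool.Agent.H204R3.GP Pool.Agent.H204R3.SP IntermediateField
  Pool.Agent.H194R3.CM Pool.Agent.H194R3.Tate Pool.Agent.Helper33Dom

theorem result (ℓ p : ℕ) [Fact ℓ.Prime] [Fact p.Prime] (a : ℕ) (ha : 0 < a)
    -- the Weil numbers
    {ι : Type} [Fintype ι] (F : ι → Type) [∀ i, Field (F i)] [∀ i, NumberField (F i)]
    [∀ i, IsCMField (F i)]
    (π : ∀ i, F i) (hgen : ∀ i, ℚ⟮π i⟯ = ⊤)
    (hweil : ∀ i, π i * IsCMField.complexConj (F i) (π i) = (p : F i) ^ a)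
    (hπ : ∀ i, DominantType p a (π i) ∨ PairType p a (π i) ∨ FlipType p a (π i))
    (hcross : ∀ i j, i ≠ j → ∀ (φ : F i →+* ℂ) (ψ : F j →+* ℂ), CrossFlipped φ ψ)
    -- the complex torus `A(ℂ)` with a polarization
    {W T : Type} [AddCommGroup W] [Module ℚ W] [AddCommGroup T] [Module ℂ T] (per : W →+ T)
    (ω₀ : W →ₗ[ℚ] W →ₗ[ℚ] ℚ) (hω₀ : IsHodgeBilinear per ω₀)
    -- the Tate module
    {V : Type} [AddCommGroup V] [Module ℚ_[ℓ] V] [FiniteDimensional ℚ_[ℓ] V] (comp : W →+ V)
    {Γ : Type} [Group Γ] (ρ : Representation ℚ_[ℓ] Γ V) (χ : Γ →* ℚ_[ℓ])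
    (ω : V →ₗ[ℚ_[ℓ]] V →ₗ[ℚ_[ℓ]] ℚ_[ℓ]) (halt : ∀ v, ω v v = 0)
    (hnondeg : ∀ u, (∀ v, ω v u = 0) → u = 0)
    (hω : ∀ s u v, ω (ρ s u) (ρ s v) = χ s * ω u v)
    (hωω : ∀ x y, ω (comp x) (comp y) = ((ω₀ x y : ℚ) : ℚ_[ℓ]))
    (hss : FiniteIndexSemisimple ρ) (hF : FaltingsEnd per comp ρ)
    (γ : Γ) (hχ : χ γ = (p : ℚ_[ℓ]) ^ a)
    (hγ : (ρ γ).charpoly = ∏ i, (minpoly ℚ (π i)).map (algebraMap ℚ ℚ_[ℓ])) :
    MumfordTateStrong per comp ρ χ := by
  have hss' : ∀ Δ : Subgroup Γ, Δ.FiniteIndex → SemiUnder (ρ '' (Δ : Set Γ)) := by
    intro Δ hΔ U hU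
    obtain ⟨U', h1, h2⟩ := hss Δ hΔ U (fun s hs u hu => hU _ ⟨s, hs, rfl⟩ u hu)
    refine ⟨U', ?_, h2⟩
    rintro _ ⟨s, hs, rfl⟩ u hu
    exact h1 s hs u hu
  have hnd' : ∀ u, (∀ v, ω u v = 0) → u = 0 := by
    intro u hu
    apply hnondeg
    intro v
    have h1 := halt (u + v)
    simp only [map_add, LinearMap.add_apply, halt, hu, zero_add, add_zero] at h1
    exact h1
  obtain ⟨L, hL1, hL2, j, h⟩ := Pool.Agent.H204R3.CM.exists_galois F
  let e : L →ₐ[ℚ] PadicAlgCl p := IsAlgClosed.lift
  have hweil' : ∀ i, ∀ φ : F i →+* ℂ, ‖φ (π i)‖ ^ 2 = (((p : ℚ) ^ a : ℚ) : ℝ) :=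
    fun i φ => norm_of_weil p a (π i) (hweil i) φ
  have hnd := norel_of_family p (fun _ => a) π hweil' hπ hcross
  have hneat := neat_of_norel p a π hweil' e (hnd L hL1 hL2 j h e)
  exact mumfordTate_of per comp ρ χ ω hnd' hω ω₀ hω₀ hωω hF fun m φ hφ =>
    tate_of_neat ha hgen hweil j h hneat ρ χ ω halt hnondeg hω hss' γ hχ hγ φ hφ

end Pool.Agent.Results.MP_33b3f9_ag.DominantFamilies
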